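import Mathlib

set_option autoImplicit false

open Set Filter Topology

namespace Pool.Agent.Results.MP_c42e77_an.CountableLevel

/-- The subsum `f(ε) = ∑ ε_n x_n`. -/
noncomputable def subsum (x : ℕ → ℝ) (ε : ℕ → Bool) : ℝ := ∑' n, if ε n = true then x n else 0

/-- The cardinality function `F_x(t) = card f⁻¹(t)`. -/
noncomputable def cardFun (x : ℕ → ℝ) (t : ℝ) : Cardinal :=
  Cardinal.mk {ε : ℕ → Bool // subsum x ε = t}

/-- The level set `L_κ(x) = {t : F_x(t) = κ}`. -/
def levelSet (x : ℕ → ℝ) (κ : Cardinal) : Set ℝ := {t | cardFun x t = κ}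

section Construction

/-- the weights `10^{-n}` -/
noncomputable def w (n : ℕ) : ℝ := (1 / 10 : ℝ) ^ n

/-- first index function -/
def aI (n : ℕ) : ℕ :=
  if n % 2 = 0 then n / 2 else (Nat.unpair (n / 2)).1 + 1 + (Nat.unpair (n / 2)).2

/-- second index function -/
def bI (n : ℕ) : ℕ := (Nat.unpair (n / 2)).1

/-- the switch -/
def sI (n : ℕ) : ℤ := if n % 2 = 1 ∧ (Nat.unpair (n / 2)).2 ≠ 0 then 1 else 0

/-- the digit map -/
def D (n : ℕ) (γ : ℕ → ℤ) : ℤ := γ (aI n) + sI n * (γ (bI n) - γ (bI n + 1))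

/-- bits as integers -/
def zb (b : Bool) : ℤ := if b = true then 1 else 0

theorem zb_cases (b : Bool) : zb b = 0 ∨ zb b = 1 := by cases b <;> simp [zb]

theorem zb_inj {b c : Bool} (h : zb b = zb c) : b = c := by
  cases b <;> cases c <;> simp_all [zb]

theorem sI_cases (n : ℕ) : sI n = 0 ∨ sI n = 1 := by
  unfold sI; split_ifs <;> simp

theorem w_pos (n : ℕ) : 0 < w n := by unfold w; positivity

theorem w_summable : Summable w := by
  unfold w
  exact summable_geometric_of_lt_one (by norm_num) (by norm_num)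

/-- digits bounded by 4 are weakly summable against `w` -/
theorem summable_digits (d : ℕ → ℤ) (C : ℝ) (hd : ∀ n, |(d n : ℝ)| ≤ C) :
    Summable fun n => (d n : ℝ) * w n := by
  refine Summable.of_norm_bounded (g := fun n => C * w n) (w_summable.mul_left C) ?_
  intro n
  rw [Real.norm_eq_abs, abs_mul, abs_of_pos (w_pos n)]
  exact mul_le_mul_of_nonneg_right (hd n) (w_pos n).le

theorem w_add (n m : ℕ) : w (n + m) = w m * w n := by
  unfold w
  rw [pow_add, mul_comm]

theorem w_tsum : HasSum w (10 / 9) := by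
  have hg := hasSum_geometric_of_lt_one (r := (1 / 10 : ℝ)) (by norm_num) (by norm_num)
  have he : (1 - 1 / 10 : ℝ)⁻¹ = 10 / 9 := by norm_num
  rw [he] at hg
  exact hg

theorem tail_hasSum (N : ℕ) : HasSum (fun n => -4 * w (n + (N + 1))) (-4 * (w N * (1 / 9))) := by
  have h1 := (w_tsum.mul_left (w (N + 1))).mul_left (-4 : ℝ)
  have he : w (N + 1) * (10 / 9) = w N * (1 / 9) := by
    have : w (N + 1) = w 1 * w N := by rw [add_comm]; rw [w_add, mul_comm]
    rw [this]
    have h1 : w 1 = 1 / 10 := by simp [w]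
    rw [h1]
    ring
  rw [he] at h1
  have h2 : (fun n => -4 * w (n + (N + 1))) = fun n => -4 * (w (N + 1) * w n) := by
    funext n
    rw [w_add]
  rw [h2]
  exact h1

attribute [local irreducible] w

theorem sign_lemma (d : ℕ → ℤ) (hd : ∀ n, |d n| ≤ 4) (N : ℕ) (h0 : ∀ n < N, 0 ≤ d n)
    (hN : 1 ≤ d N) : 0 < ∑' n, (d n : ℝ) * w n := by
  have hd' : ∀ n, |(d n : ℝ)| ≤ 4 := by
    intro n
    have := hd n
    exact_mod_cast this
  have hs := summable_digits d 4 hd'
  have hsplit := hs.sum_add_tsum_nat_add (N + 1)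
  rw [← hsplit]
  clear hsplit
  have h1 : (w N : ℝ) ≤ ∑ i ∈ Finset.range (N + 1), (d i : ℝ) * w i := by
    rw [Finset.sum_range_succ]
    have h2 : 0 ≤ ∑ i ∈ Finset.range N, (d i : ℝ) * w i := by
      apply Finset.sum_nonneg
      intro i hi
      have := h0 i (Finset.mem_range.mp hi)
      have h3 : (0 : ℝ) ≤ d i := by exact_mod_cast this
      exact mul_nonneg h3 (w_pos i).le
    have h4 : (1 : ℝ) ≤ d N := by exact_mod_cast hN
    have h7 := w_pos N
    have h8 : w N ≤ (d N : ℝ) * w N := le_mul_of_one_le_left h7.le h4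
    exact le_add_of_nonneg_of_le h2 h8
  have hs' : Summable fun n => (d (n + (N + 1)) : ℝ) * w (n + (N + 1)) :=
    (summable_nat_add_iff (N + 1)).mpr hs
  have h5 : -4 * (w N * (1 / 9)) ≤ ∑' n, (d (n + (N + 1)) : ℝ) * w (n + (N + 1)) := by
    rw [← (tail_hasSum N).tsum_eq]
    apply Summable.tsum_le_tsum _ (tail_hasSum N).summable hs'
    intro n
    have h6 := abs_le.mp (hd' (n + (N + 1)))
    have h7 := w_pos (n + (N + 1))
    exact mul_le_mul_of_nonneg_right h6.1 h7.le
  have := w_pos N
  linarith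

theorem digits_unique (c c' : ℕ → ℤ) (hd : ∀ n, |c n - c' n| ≤ 4) (hc : ∀ n, |c n| ≤ 4)
    (hc' : ∀ n, |c' n| ≤ 4)
    (h : ∑' n, (c n : ℝ) * w n = ∑' n, (c' n : ℝ) * w n) : c = c' := by
  have hcs := summable_digits c 4 (fun n => by exact_mod_cast hc n)
  have hcs' := summable_digits c' 4 (fun n => by exact_mod_cast hc' n)
  by_contra hne
  have hex : ∃ n, c n ≠ c' n := by
    by_contra hno
    push Not at hno
    exact hne (funext hno)
  classical
  have hN := Nat.find_spec hex
  have hmin : ∀ n < Nat.find hex, c n = c' n := fun n hn => by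
    have := Nat.find_min hex hn
    push Not at this
    exact this
  set N := Nat.find hex with hNdef
  rcases lt_or_gt_of_ne hN with hlt | hgt
  · have h1 := sign_lemma (fun n => c' n - c n) (fun n => by
      have := hd n
      rw [abs_sub_comm] at this
      exact this) N (fun n hn => by simp [hmin n hn]) (by show 1 ≤ c' N - c N; omega)
    have h2 : ∑' n, (((c' n - c n : ℤ) : ℝ)) * w n = 0 := by
      have : (fun n => (((c' n - c n : ℤ) : ℝ)) * w n)
          = fun n => (c' n : ℝ) * w n - (c n : ℝ) * w n := by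
        funext n; push_cast; ring
      rw [this, hcs'.tsum_sub hcs, h, sub_self]
    linarith
  · have h1 := sign_lemma (fun n => c n - c' n) (fun n => hd n) N
      (fun n hn => by simp [hmin n hn]) (by show 1 ≤ c N - c' N; omega)
    have h2 : ∑' n, (((c n - c' n : ℤ) : ℝ)) * w n = 0 := by
      have : (fun n => (((c n - c' n : ℤ) : ℝ)) * w n)
          = fun n => (c n : ℝ) * w n - (c' n : ℝ) * w n := by
        funext n; push_cast; ring
      rw [this, hcs.tsum_sub hcs', h, sub_self]
    linarith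

/-- regrouping of a sum along the fibres of an index function -/
theorem hasSum_fiber (u : ℕ → ℝ) (b : ℕ → ℕ) (γ : ℕ → ℝ) (hu : Summable fun n => |u n|)
    (hγ : ∀ k, |γ k| ≤ 1) :
    HasSum (fun k => γ k * ∑' n, if b n = k then u n else 0) (∑' n, u n * γ (b n)) := by
  have hsum : Summable fun n => u n * γ (b n) := by
    refine Summable.of_norm_bounded (g := fun n => |u n|) hu ?_
    intro n
    rw [Real.norm_eq_abs, abs_mul]
    have := hγ (b n)
    have := abs_nonneg (u n)
    nlinarith
  have h1 := hsum.hasSum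
  have h2 := (Equiv.sigmaFiberEquiv b).hasSum_iff.mpr h1
  refine h2.sigma ?_
  intro k
  have hind : HasSum (fun n => if b n = k then u n else 0) (∑' n, if b n = k then u n else 0) := by
    apply Summable.hasSum
    refine Summable.of_norm_bounded (g := fun n => |u n|) hu ?_
    intro n
    split_ifs
    · exact le_of_eq (Real.norm_eq_abs _)
    · simp
  have h3 := hind.mul_left (γ k)
  have h4 : HasSum ((fun n => γ k * (if b n = k then u n else 0)) ∘ ((↑) : {n | b n = k} → ℕ))
      (γ k * ∑' n, if b n = k then u n else 0) := by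
    rw [hasSum_subtype_iff_of_support_subset]
    · exact h3
    · intro n hn
      simp only [Function.mem_support, ne_eq, mul_eq_zero, ite_eq_right_iff, not_or,
        Classical.not_imp] at hn
      exact hn.2.1
  refine h4.congr_fun ?_
  rintro ⟨n, hn⟩
  have hn' : b n = k := hn
  simp [Equiv.sigmaFiberEquiv, hn', mul_comm]

theorem summable_abs_w : Summable fun n => |w n| := by
  have h : (fun n => |w n|) = w := by funext n; exact abs_of_pos (w_pos n)
  rw [h]
  exact w_summable

theorem summable_abs_sw : Summable fun n => |(sI n : ℝ) * w n| := by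
  refine Summable.of_nonneg_of_le (fun n => abs_nonneg _) (fun n => ?_) w_summable
  rw [abs_mul, abs_of_pos (w_pos n)]
  have : |(sI n : ℝ)| ≤ 1 := by
    rcases sI_cases n with h | h <;> rw [h] <;> simp
  have h7 := w_pos n
  exact mul_le_of_le_one_left h7.le this

/-- unit sequence -/
def e (k : ℕ) : ℕ → ℤ := fun i => if i = k then 1 else 0

/-- the extra elements -/
noncomputable def g (k : ℕ) : ℝ := ∑' n, (D n (e k) : ℝ) * w n

theorem D_e_bound (n k : ℕ) : |D n (e k)| ≤ 4 := by
  unfold D e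
  rcases sI_cases n with h | h <;> rw [h] <;> split_ifs <;> simp

theorem aI_even (k : ℕ) : aI (2 * k) = k := by
  unfold aI
  simp

theorem sI_even (k : ℕ) : sI (2 * k) = 0 := by
  unfold sI
  simp

theorem sI_one {n : ℕ} (h : sI n = 1) : bI n + 1 < aI n ∧ 2 * (bI n + 1) < n := by
  unfold sI at h
  by_cases hc : n % 2 = 1 ∧ (Nat.unpair (n / 2)).2 ≠ 0
  · obtain ⟨h1, h2⟩ := hc
    unfold aI bI
    have h3 : ¬ n % 2 = 0 := by omega
    rw [if_neg h3]
    have h4 : Nat.pair (Nat.unpair (n / 2)).1 (Nat.unpair (n / 2)).2 = n / 2 := Nat.pair_unpair _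
    have h5 := Nat.add_le_pair (Nat.unpair (n / 2)).1 (Nat.unpair (n / 2)).2
    rw [h4] at h5
    omega
  · rw [if_neg hc] at h
    exact absurd h (by norm_num)

theorem exists_index (j l : ℕ) (h : j + 2 ≤ l) : ∃ n, sI n = 1 ∧ bI n = j ∧ aI n = l := by
  refine ⟨2 * Nat.pair j (l - (j + 1)) + 1, ?_, ?_, ?_⟩
  · unfold sI
    have h1 : (2 * Nat.pair j (l - (j + 1)) + 1) / 2 = Nat.pair j (l - (j + 1)) := by omega
    rw [h1, Nat.unpair_pair]
    rw [if_pos]
    refine ⟨by omega, ?_⟩
    show l - (j + 1) ≠ 0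
    omega
  · unfold bI
    have h1 : (2 * Nat.pair j (l - (j + 1)) + 1) / 2 = Nat.pair j (l - (j + 1)) := by omega
    rw [h1, Nat.unpair_pair]
  · unfold aI
    have h1 : (2 * Nat.pair j (l - (j + 1)) + 1) / 2 = Nat.pair j (l - (j + 1)) := by omega
    rw [h1, Nat.unpair_pair, if_neg (by omega)]
    show j + 1 + (l - (j + 1)) = l
    omega

theorem aI_large (k : ℕ) : ∃ N, ∀ n, N ≤ n → k ≤ aI n := by
  refine ⟨2 * (k + 1) ^ 2 + 2, fun n hn => ?_⟩
  unfold aI
  split_ifs with h
  · have : k ≤ (k + 1) ^ 2 := by nlinarith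
    omega
  · by_contra hlt
    push Not at hlt
    have h4 : Nat.pair (Nat.unpair (n / 2)).1 (Nat.unpair (n / 2)).2 = n / 2 := Nat.pair_unpair _
    have h5 := Nat.pair_lt_max_add_one_sq (Nat.unpair (n / 2)).1 (Nat.unpair (n / 2)).2
    rw [h4] at h5
    have h6 : max (Nat.unpair (n / 2)).1 (Nat.unpair (n / 2)).2 + 1 ≤ k + 1 := by omega
    have h7 := Nat.pow_le_pow_left h6 2
    omega

theorem g_pos (k : ℕ) : 0 < g k := by
  unfold g
  apply sign_lemma _ (D_e_bound · k) (2 * k)
  · intro n hn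
    unfold D
    rcases sI_cases n with h | h
    · rw [h, zero_mul, add_zero]
      unfold e
      split_ifs <;> simp
    · rw [h, one_mul]
      have h1 := (sI_one h).2
      unfold e
      have h2 : ¬ bI n + 1 = k := by omega
      rw [if_neg h2]
      split_ifs <;> simp
  · unfold D
    rw [aI_even, sI_even]
    simp [e]

theorem g_eq (k : ℕ) : g k = (∑' n, if aI n = k then w n else 0) +
    ((∑' n, if bI n = k then (sI n : ℝ) * w n else 0) -
      ∑' n, if bI n + 1 = k then (sI n : ℝ) * w n else 0) := by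
  have hs : ∀ (b : ℕ → ℕ) (u : ℕ → ℝ), (Summable fun n => |u n|) →
      Summable fun n => if b n = k then u n else 0 := by
    intro b u hu
    refine Summable.of_norm_bounded (g := fun n => |u n|) hu ?_
    intro n
    split_ifs
    · exact le_of_eq (Real.norm_eq_abs _)
    · simp
  have h1 := hs aI w summable_abs_w
  have h2 := hs bI (fun n => (sI n : ℝ) * w n) summable_abs_sw
  have h3 := hs (fun n => bI n + 1) (fun n => (sI n : ℝ) * w n) summable_abs_sw
  rw [← h2.tsum_sub h3, ← h1.tsum_add (h2.sub h3)]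
  unfold g
  congr 1
  funext n
  unfold D e
  push_cast
  by_cases ha : aI n = k <;> by_cases hb : bI n = k <;> by_cases hc : bI n + 1 = k <;>
    simp [ha, hb, hc] <;> ring

/-- the digits are computed by the elements -/
theorem hasSum_g (γ : ℕ → ℤ) (hγ : ∀ k, |γ k| ≤ 1) :
    HasSum (fun k => (γ k : ℝ) * g k) (∑' n, (D n γ : ℝ) * w n) := by
  have hγ' : ∀ k, |(γ k : ℝ)| ≤ 1 := fun k => by exact_mod_cast hγ k
  have h1 := hasSum_fiber w aI (fun k => (γ k : ℝ)) summable_abs_w hγ'
  have h2 := hasSum_fiber (fun n => (sI n : ℝ) * w n) bI (fun k => (γ k : ℝ)) summable_abs_sw hγ'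
  have h3 := hasSum_fiber (fun n => (sI n : ℝ) * w n) (fun n => bI n + 1) (fun k => (γ k : ℝ))
    summable_abs_sw hγ'
  have h4 := h1.add (h2.sub h3)
  have hs : ∀ (b : ℕ → ℕ) (u : ℕ → ℝ), (Summable fun n => |u n|) →
      Summable fun n => u n * (γ (b n) : ℝ) := by
    intro b u hu
    refine Summable.of_norm_bounded (g := fun n => |u n|) hu ?_
    intro n
    rw [Real.norm_eq_abs, abs_mul]
    exact mul_le_of_le_one_right (abs_nonneg _) (hγ' _)
  have s1 := hs aI w summable_abs_w
  have s2 := hs bI (fun n => (sI n : ℝ) * w n) summable_abs_sw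
  have s3 := hs (fun n => bI n + 1) (fun n => (sI n : ℝ) * w n) summable_abs_sw
  rw [← s2.tsum_sub s3, ← s1.tsum_add (s2.sub s3)] at h4
  have e1 : (fun k => (γ k : ℝ) * g k) = fun k =>
      (γ k : ℝ) * (∑' n, if aI n = k then w n else 0) +
      ((γ k : ℝ) * (∑' n, if bI n = k then (sI n : ℝ) * w n else 0) -
        (γ k : ℝ) * ∑' n, if bI n + 1 = k then (sI n : ℝ) * w n else 0) := by
    funext k
    rw [g_eq]
    ring
  have e2 : (fun n => (D n γ : ℝ) * w n) = fun n => w n * (γ (aI n) : ℝ) +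
      ((sI n : ℝ) * w n * (γ (bI n) : ℝ) - (sI n : ℝ) * w n * (γ (bI n + 1) : ℝ)) := by
    funext n
    unfold D
    push_cast
    ring
  rw [e1, e2]
  exact h4

/-- the series -/
noncomputable def X (n : ℕ) : ℝ := if n % 2 = 0 then w (n / 2) else g (n / 2)

theorem X_even (n : ℕ) : X (2 * n) = w n := by
  unfold X
  simp

theorem X_odd (n : ℕ) : X (2 * n + 1) = g n := by
  unfold X
  have h1 : ¬ (2 * n + 1) % 2 = 0 := by omega
  have h2 : (2 * n + 1) / 2 = n := by omega
  rw [if_neg h1, h2]

theorem X_pos (n : ℕ) : 0 < X n := by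
  unfold X
  split_ifs
  · exact w_pos _
  · exact g_pos _

/-- the digit sequence of an element -/
def dig (ε : ℕ → Bool) (n : ℕ) : ℤ := zb (ε (2 * n)) + D n (fun k => zb (ε (2 * k + 1)))

attribute [local irreducible] X g

theorem hasSum_X (ε : ℕ → Bool) :
    HasSum (fun n => if ε n = true then X n else 0) (∑' n, (dig ε n : ℝ) * w n) := by
  have hz : ∀ k, |zb (ε (2 * k + 1))| ≤ 1 := fun k => by
    rcases zb_cases (ε (2 * k + 1)) with h | h <;> rw [h] <;> simp
  have h1 := hasSum_g (fun k => zb (ε (2 * k + 1))) hz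
  have h2 : HasSum (fun n => (zb (ε (2 * n)) : ℝ) * w n) (∑' n, (zb (ε (2 * n)) : ℝ) * w n) := by
    apply Summable.hasSum
    exact summable_digits (fun n => zb (ε (2 * n))) 1 (fun n => by
      rcases zb_cases (ε (2 * n)) with h | h <;> simp [h])
  have h3 : HasSum (fun n => if ε (2 * n) = true then X (2 * n) else 0)
      (∑' n, (zb (ε (2 * n)) : ℝ) * w n) := by
    have : (fun n => if ε (2 * n) = true then X (2 * n) else 0)
        = fun n => (zb (ε (2 * n)) : ℝ) * w n := by
      funext n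
      rw [X_even]
      unfold zb
      split_ifs <;> simp
    rw [this]
    exact h2
  have h4 : HasSum (fun n => if ε (2 * n + 1) = true then X (2 * n + 1) else 0)
      (∑' n, (D n (fun k => zb (ε (2 * k + 1))) : ℝ) * w n) := by
    have : (fun n => if ε (2 * n + 1) = true then X (2 * n + 1) else 0)
        = fun n => (zb (ε (2 * n + 1)) : ℝ) * g n := by
      funext n
      rw [X_odd]
      unfold zb
      split_ifs <;> simp
    rw [this]
    exact h1
  have hDb : ∀ n, |((D n (fun k => zb (ε (2 * k + 1))) : ℤ) : ℝ)| ≤ 4 := by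
    intro n
    have : |D n (fun k => zb (ε (2 * k + 1)))| ≤ 4 := by
      unfold D
      have h1 := zb_cases (ε (2 * (aI n) + 1))
      have h2 := zb_cases (ε (2 * (bI n) + 1))
      have h3 := zb_cases (ε (2 * (bI n + 1) + 1))
      rw [abs_le]
      beta_reduce
      rcases sI_cases n with h | h <;> rw [h] <;> constructor <;> omega
    exact_mod_cast this
  have h5 := HasSum.even_add_odd (f := fun n => if ε n = true then X n else 0) h3 h4
  have s1 : Summable (fun n => (zb (ε (2 * n)) : ℝ) * w n) :=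
    summable_digits (fun n => zb (ε (2 * n))) 1 (fun n => by
      rcases zb_cases (ε (2 * n)) with h | h <;> simp [h])
  have s2 := summable_digits (fun n => D n (fun k => zb (ε (2 * k + 1)))) 4 hDb
  rw [← s1.tsum_add s2] at h5
  have e2 : (fun n => (dig ε n : ℝ) * w n) = fun n => (zb (ε (2 * n)) : ℝ) * w n +
      (D n (fun k => zb (ε (2 * k + 1))) : ℝ) * w n := by
    funext n
    unfold dig
    push_cast
    ring
  rw [e2]
  exact h5

theorem X_summable : Summable X := by
  have := (hasSum_X (fun _ => true)).summable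
  simpa using this

theorem dig_bounds (ε : ℕ → Bool) (n : ℕ) : -1 ≤ dig ε n ∧ dig ε n ≤ 3 := by
  unfold dig D
  have h0 := zb_cases (ε (2 * n))
  have h1 := zb_cases (ε (2 * (aI n) + 1))
  have h2 := zb_cases (ε (2 * (bI n) + 1))
  have h3 := zb_cases (ε (2 * (bI n + 1) + 1))
  beta_reduce
  rcases sI_cases n with h | h <;> rw [h] <;> constructor <;> omega

theorem subsum_eq_iff (ε ε' : ℕ → Bool) : subsum X ε = subsum X ε' ↔ dig ε = dig ε' := by
  unfold subsum
  rw [(hasSum_X ε).tsum_eq, (hasSum_X ε').tsum_eq]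
  constructor
  · intro h
    apply digits_unique _ _ _ _ _ h
    · intro n
      have h1 := dig_bounds ε n
      have h2 := dig_bounds ε' n
      rw [abs_le]
      omega
    · intro n
      have h1 := dig_bounds ε n
      rw [abs_le]
      omega
    · intro n
      have h1 := dig_bounds ε' n
      rw [abs_le]
      omega
  · intro h
    rw [h]

theorem D_sub (n : ℕ) (γ γ' : ℕ → ℤ) : D n (fun k => γ k - γ' k) = D n γ - D n γ' := by
  unfold D
  ring

/-- the difference sequence -/
def del (ε a : ℕ → Bool) (k : ℕ) : ℤ := zb (ε (2 * k + 1)) - zb (a (2 * k + 1))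

theorem D_del {ε a : ℕ → Bool} (h : dig ε = dig a) (n : ℕ) :
    D n (del ε a) = zb (a (2 * n)) - zb (ε (2 * n)) := by
  have h1 := congrFun h n
  unfold dig at h1
  have h2 := D_sub n (fun k => zb (ε (2 * k + 1))) (fun k => zb (a (2 * k + 1)))
  have h3 : D n (del ε a) = D n (fun k => zb (ε (2 * k + 1)) - zb (a (2 * k + 1))) := rfl
  rw [h3, h2]
  linarith

theorem del_bound (ε a : ℕ → Bool) (k : ℕ) : |del ε a k| ≤ 1 := by
  unfold del
  have h0 := zb_cases (ε (2 * k + 1))
  have h1 := zb_cases (a (2 * k + 1))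
  rw [abs_le]
  omega

theorem del_jump {ε a : ℕ → Bool} (h : dig ε = dig a) (j l : ℕ) (hjl : j + 2 ≤ l) :
    |del ε a l - (del ε a (j + 1) - del ε a j)| ≤ 1 := by
  obtain ⟨n, h1, h2, h3⟩ := exists_index j l hjl
  have h4 := D_del h n
  have h5 := zb_cases (ε (2 * n))
  have h6 := zb_cases (a (2 * n))
  unfold D at h4
  rw [h1, h2, h3] at h4
  rw [abs_le]
  omega

theorem dig_inj {ε a : ℕ → Bool} (h : dig ε = dig a) (h2 : ∀ k, ε (2 * k + 1) = a (2 * k + 1)) :
    ε = a := by
  funext i
  rcases Nat.even_or_odd' i with ⟨k, hk | hk⟩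
  · have h3 := D_del h k
    have h4 : del ε a = fun _ => 0 := by
      funext k
      unfold del
      rw [h2 k, sub_self]
    rw [h4] at h3
    have h5 : D k (fun _ => 0) = 0 := by unfold D; simp
    rw [h5] at h3
    rw [hk]
    exact zb_inj (by omega)
  · rw [hk]
    exact h2 k

theorem evconst_anti (δ : ℕ → ℤ) (hb : ∀ k, |δ k| ≤ 1) (h : Antitone δ) :
    ∃ N v, ∀ n, N ≤ n → δ n = v := by
  by_cases h1 : ∃ n, δ n = -1
  · obtain ⟨N, hN⟩ := h1
    refine ⟨N, -1, fun n hn => ?_⟩
    have h2 := h hn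
    have h3 := abs_le.mp (hb n)
    omega
  · push Not at h1
    by_cases h2 : ∃ n, δ n = 0
    · obtain ⟨N, hN⟩ := h2
      refine ⟨N, 0, fun n hn => ?_⟩
      have h2 := h hn
      have h3 := abs_le.mp (hb n)
      have h4 := h1 n
      omega
    · push Not at h2
      refine ⟨0, 1, fun n _ => ?_⟩
      have h3 := abs_le.mp (hb n)
      have h4 := h1 n
      have h5 := h2 n
      omega

theorem evconst (δ : ℕ → ℤ) (hb : ∀ k, |δ k| ≤ 1)
    (h : ∀ j l, j + 2 ≤ l → |δ l - (δ (j + 1) - δ j)| ≤ 1) :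
    ∃ N v, ∀ n, N ≤ n → δ n = v := by
  by_cases hup : ∃ j, δ j < δ (j + 1)
  · by_cases hdn : ∃ j, δ (j + 1) < δ j
    · obtain ⟨j1, h1⟩ := hup
      obtain ⟨j2, h2⟩ := hdn
      refine ⟨j1 + j2 + 2, 0, fun n hn => ?_⟩
      have h3 := abs_le.mp (h j1 n (by omega))
      have h4 := abs_le.mp (h j2 n (by omega))
      omega
    · push Not at hdn
      obtain ⟨N, v, hN⟩ := evconst_anti (fun n => - δ n) (fun k => by rw [abs_neg]; exact hb k)
        (antitone_nat_of_succ_le (fun n => by have := hdn n; show - δ (n + 1) ≤ - δ n; omega))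
      exact ⟨N, -v, fun n hn => by have := hN n hn; omega⟩
  · push Not at hup
    exact evconst_anti δ hb (antitone_nat_of_succ_le hup)

/-- every fibre is countable -/
theorem fibre_countable (a : ℕ → Bool) : {ε : ℕ → Bool | dig ε = dig a}.Countable := by
  have hsub : {ε : ℕ → Bool | dig ε = dig a} ⊆
      ⋃ N : ℕ, ⋃ v : ℤ, {ε : ℕ → Bool | dig ε = dig a ∧ ∀ k, N ≤ k → del ε a k = v} := by
    intro ε hε
    obtain ⟨N, v, hN⟩ := evconst (del ε a) (del_bound ε a) (del_jump hε)
    simp only [mem_iUnion]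
    exact ⟨N, v, hε, hN⟩
  refine Set.Countable.mono hsub ?_
  refine Set.countable_iUnion fun N => Set.countable_iUnion fun v => ?_
  have hinj : Set.InjOn (fun (ε : ℕ → Bool) (i : Fin N) => ε (2 * (i : ℕ) + 1))
      {ε : ℕ → Bool | dig ε = dig a ∧ ∀ k, N ≤ k → del ε a k = v} := by
    rintro ε ⟨h1, h2⟩ ε' ⟨h1', h2'⟩ heq
    apply dig_inj (h1.trans h1'.symm)
    intro k
    by_cases hk : k < N
    · exact congrFun heq ⟨k, hk⟩
    · have h3 := h2 k (by omega)
      have h4 := h2' k (by omega)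
      unfold del at h3 h4
      exact zb_inj (by omega)
  exact Set.Finite.countable (Set.Finite.of_finite_image (Set.toFinite _) hinj)

/-- eventually periodic choices -/
theorem periodic_countable : {ε : ℕ → Bool | ∃ N, ∀ n, N ≤ n → ε (n + 2) = ε n}.Countable := by
  have hsub : {ε : ℕ → Bool | ∃ N, ∀ n, N ≤ n → ε (n + 2) = ε n} ⊆
      ⋃ N : ℕ, {ε : ℕ → Bool | ∀ n, N ≤ n → ε (n + 2) = ε n} := by
    rintro ε ⟨N, hN⟩
    simp only [mem_iUnion]
    exact ⟨N, hN⟩
  refine Set.Countable.mono hsub ?_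
  refine Set.countable_iUnion fun N => ?_
  have hinj : Set.InjOn (fun (ε : ℕ → Bool) (i : Fin (N + 2)) => ε (i : ℕ))
      {ε : ℕ → Bool | ∀ n, N ≤ n → ε (n + 2) = ε n} := by
    intro ε h1 ε' h2 heq
    funext n
    induction n using Nat.strong_induction_on with
    | _ n ih =>
      by_cases hn : n < N + 2
      · exact congrFun heq ⟨n, hn⟩
      · have h3 := h1 (n - 2) (by omega)
        have h4 := h2 (n - 2) (by omega)
        have h5 : n - 2 + 2 = n := by omega
        rw [h5] at h3 h4
        rw [h3, h4]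
        exact ih (n - 2) (by omega)
  exact Set.Finite.countable (Set.Finite.of_finite_image (Set.toFinite _) hinj)

theorem shape (δ : ℕ → ℤ) (hb : ∀ k, |δ k| ≤ 1)
    (h : ∀ j l, j + 2 ≤ l → |δ l - (δ (j + 1) - δ j)| ≤ 1) (k : ℕ) (hk : 1 ≤ k)
    (hz : ∀ i, i < k → δ i = 0) (hne : δ k ≠ 0) :
    (∀ l, k ≤ l → δ l = δ k) ∨ ∃ e, k < e ∧ δ (e - 1) = δ k ∧ ∀ l, e ≤ l → δ l = 0 := by
  classical
  by_cases hall : ∀ l, k ≤ l → δ l = δ k
  · exact Or.inl hall
  · right
    push Not at hall
    have hs := abs_le.mp (hb k)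
    have hfirst : ∀ l, k < l → δ l = δ k ∨ δ l = 0 := by
      intro l hl
      have h1 := abs_le.mp (h (k - 1) l (by omega))
      have h2 := hz (k - 1) (by omega)
      have h3 : k - 1 + 1 = k := by omega
      rw [h3, h2] at h1
      have h4 := abs_le.mp (hb l)
      omega
    have hex : ∃ l, k ≤ l ∧ δ l ≠ δ k := hall
    obtain ⟨h1, h2⟩ := Nat.find_spec hex
    have hmin : ∀ l, l < Nat.find hex → k ≤ l → δ l = δ k := by
      intro l hl hkl
      have := Nat.find_min hex hl
      push Not at this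
      exact this hkl
    set e := Nat.find hex with he
    have hke : k < e := by
      rcases lt_or_eq_of_le h1 with h3 | h3
      · exact h3
      · rw [← h3] at h2
        exact absurd rfl h2
    have he0 : δ e = 0 := (hfirst e hke).resolve_left h2
    have he1 : δ (e - 1) = δ k := hmin (e - 1) (by omega) (by omega)
    refine ⟨e, hke, he1, fun l hl => ?_⟩
    rcases lt_or_eq_of_le hl with h3 | h3
    · have h4 := abs_le.mp (h (e - 1) l (by omega))
      have h5 : e - 1 + 1 = e := by omega
      rw [h5, he0, he1] at h4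
      have h6 := hfirst l (by omega)
      omega
    · rw [← h3]
      exact he0

/-- an accumulation point of a fibre is eventually periodic -/
theorem periodic_of_acc (a : ℕ → Bool)
    (hacc : ∀ K : ℕ, ∃ ε : ℕ → Bool, dig ε = dig a ∧ ε ≠ a ∧ ∀ i, i < K → ε i = a i) :
    ∃ N, ∀ n, N ≤ n → a (n + 2) = a n := by
  classical
  -- first differences
  have hdiff : ∀ K : ℕ, ∃ (ε : ℕ → Bool) (k : ℕ), dig ε = dig a ∧ K < k ∧
      (∀ i, i < k → del ε a i = 0) ∧ del ε a k ≠ 0 := by
    intro K
    obtain ⟨ε, h1, h2, h3⟩ := hacc (2 * K + 2)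
    have hex : ∃ k, del ε a k ≠ 0 := by
      by_contra hno
      push Not at hno
      apply h2
      apply dig_inj h1
      intro k
      have := hno k
      unfold del at this
      exact zb_inj (by omega)
    have hsp := Nat.find_spec hex
    have hmin : ∀ i, i < Nat.find hex → del ε a i = 0 := by
      intro i hi
      have := Nat.find_min hex hi
      push Not at this
      exact this
    generalize Nat.find hex = k at hsp hmin
    refine ⟨ε, k, h1, ?_, hmin, hsp⟩
    by_contra hlt
    push Not at hlt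
    apply hsp
    unfold del
    rw [h3 (2 * k + 1) (by omega), sub_self]
  -- signs
  have hsign : ∀ ε ε' : ℕ → Bool, dig ε = dig a → dig ε' = dig a → ∀ n,
      ¬ (D n (del ε a) = 1 ∧ D n (del ε' a) = -1) ∧ ¬ (D n (del ε a) = -1 ∧ D n (del ε' a) = 1) := by
    intro ε ε' h1 h2 n
    have h3 := D_del h1 n
    have h4 := D_del h2 n
    have h5 := zb_cases (ε (2 * n))
    have h6 := zb_cases (ε' (2 * n))
    have h7 := zb_cases (a (2 * n))
    omega
  -- the differences never return to 0
  have hconst : ∀ (ε : ℕ → Bool) (k : ℕ), dig ε = dig a → 0 < k →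
      (∀ i, i < k → del ε a i = 0) → del ε a k ≠ 0 → ∀ l, k ≤ l → del ε a l = del ε a k := by
    intro ε k h1 h2 h3 h4
    rcases shape (del ε a) (del_bound ε a) (del_jump h1) k h2 h3 h4 with h5 | ⟨e, h5, h6, h7⟩
    · exact h5
    · exfalso
      obtain ⟨ε', k', g1, g2, g3, g4⟩ := hdiff e
      obtain ⟨n1, a1, a2, a3⟩ := exists_index (k - 1) k' (by omega)
      obtain ⟨n2, b1, b2, b3⟩ := exists_index (e - 1) k' (by omega)
      have c1 := hsign ε ε' h1 g1 n1
      have c2 := hsign ε ε' h1 g1 n2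
      unfold D at c1 c2
      rw [a1, a2, a3] at c1
      rw [b1, b2, b3] at c2
      have hk1 : k - 1 + 1 = k := by omega
      have he1 : e - 1 + 1 = e := by omega
      rw [hk1, h3 (k - 1) (by omega), h7 k' (by omega), g3 k (by omega), g3 (k - 1) (by omega)]
        at c1
      rw [he1, h6, h7 k' (by omega), h7 e le_rfl, g3 e (by omega), g3 (e - 1) (by omega)] at c2
      have d1 := abs_le.mp (del_bound ε a k)
      have d2 := abs_le.mp (del_bound ε' a k')
      omega
  obtain ⟨ε0, k0, p1, p2, p3, p4⟩ := hdiff 0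
  obtain ⟨ε1, k1, q1, q2, q3, q4⟩ := hdiff k0
  have p5 := hconst ε0 k0 p1 p2 p3 p4
  have q5 := hconst ε1 k1 q1 (by omega) q3 q4
  have d1 := abs_le.mp (del_bound ε0 a k0)
  have d2 := abs_le.mp (del_bound ε1 a k1)
  have hs : del ε0 a k0 = del ε1 a k1 := by
    have h1 := p5 k1 (by omega)
    have h2 : del ε0 a k1 = zb (ε0 (2 * k1 + 1)) - zb (a (2 * k1 + 1)) := rfl
    have h3 : del ε1 a k1 = zb (ε1 (2 * k1 + 1)) - zb (a (2 * k1 + 1)) := rfl
    have h5 := zb_cases (ε0 (2 * k1 + 1))
    have h6 := zb_cases (ε1 (2 * k1 + 1))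
    have h7 := zb_cases (a (2 * k1 + 1))
    omega
  have hγ : ∀ l, k0 ≤ l → zb (a (2 * l + 1)) + del ε0 a k0 = 0 ∨
      zb (a (2 * l + 1)) + del ε0 a k0 = 1 := by
    intro l hl
    have h1 := p5 l hl
    have h2 : del ε0 a l = zb (ε0 (2 * l + 1)) - zb (a (2 * l + 1)) := rfl
    have h5 := zb_cases (ε0 (2 * l + 1))
    omega
  have hval : ∀ (ε : ℕ → Bool) (k n : ℕ), dig ε = dig a →
      (∀ i, i < k → del ε a i = 0) → (∀ l, k ≤ l → del ε a l = del ε a k) →
      k ≤ aI n → bI n + 1 ≠ k → zb (a (2 * n)) - zb (ε (2 * n)) = del ε a k := by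
    intro ε k n h1 h2 h3 h4 h5
    rw [← D_del h1 n]
    unfold D
    rw [h3 _ h4]
    have h6 : del ε a (bI n) = del ε a (bI n + 1) := by
      by_cases h7 : bI n + 1 < k
      · rw [h2 _ h7, h2 _ (by omega)]
      · rw [h3 (bI n) (by omega), h3 (bI n + 1) (by omega)]
    rw [h6]
    ring
  obtain ⟨N, hN⟩ := aI_large k1
  have hα : ∀ n, N ≤ n → zb (a (2 * n)) - del ε0 a k0 = 0 ∨ zb (a (2 * n)) - del ε0 a k0 = 1 := by
    intro n hn
    have h1 := hN n hn
    by_cases h2 : bI n + 1 = k0
    · have h3 := hval ε1 k1 n q1 q3 q5 h1 (by omega)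
      have h5 := zb_cases (ε1 (2 * n))
      omega
    · have h3 := hval ε0 k0 n p1 p3 p5 (by omega) h2
      have h5 := zb_cases (ε0 (2 * n))
      omega
  refine ⟨2 * (N + k0) + 2, fun n hn => ?_⟩
  rcases Nat.even_or_odd' n with ⟨m, hm | hm⟩
  · have h1 := hα m (by omega)
    have h2 := hα (m + 1) (by omega)
    have e1 : n + 2 = 2 * (m + 1) := by omega
    rw [e1, hm]
    have h5 := zb_cases (a (2 * m))
    have h6 := zb_cases (a (2 * (m + 1)))
    apply zb_inj
    omega
  · have h1 := hγ m (by omega)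
    have h2 := hγ (m + 1) (by omega)
    have e1 : n + 2 = 2 * (m + 1) + 1 := by omega
    rw [e1, hm]
    have h5 := zb_cases (a (2 * m + 1))
    have h6 := zb_cases (a (2 * (m + 1) + 1))
    apply zb_inj
    omega

/-- the members of the infinite fibre -/
def mem (k : ℕ) (i : ℕ) : Bool :=
  if i % 2 = 0 then decide (D (i / 2) (fun l => if k ≤ l then 1 else 0) = 0)
  else decide (k ≤ i / 2)

theorem mem_even (k n : ℕ) :
    mem k (2 * n) = decide (D n (fun l => if k ≤ l then 1 else 0) = 0) := by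
  unfold mem
  have h1 : (2 * n) % 2 = 0 := by omega
  have h2 : (2 * n) / 2 = n := by omega
  rw [if_pos h1, h2]

theorem mem_odd (k n : ℕ) : mem k (2 * n + 1) = decide (k ≤ n) := by
  unfold mem
  have h1 : ¬ (2 * n + 1) % 2 = 0 := by omega
  have h2 : (2 * n + 1) / 2 = n := by omega
  rw [if_neg h1, h2]

theorem D_step (k n : ℕ) : D n (fun l => if k ≤ l then 1 else 0) = 0 ∨
    D n (fun l => if k ≤ l then 1 else 0) = 1 := by
  unfold D
  beta_reduce
  rcases sI_cases n with h | h
  · rw [h]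
    split_ifs <;> simp
  · rw [h]
    have h1 := (sI_one h).1
    split_ifs <;> omega

theorem dig_mem (k n : ℕ) : dig (mem k) n = 1 := by
  unfold dig
  rw [mem_even]
  have h1 : (fun l => zb (mem k (2 * l + 1))) = fun l => if k ≤ l then 1 else 0 := by
    funext l
    rw [mem_odd]
    unfold zb
    simp
  rw [h1]
  rcases D_step k n with h | h
  · rw [h]
    simp [zb]
  · rw [h]
    simp [zb]

theorem mem_injective : Function.Injective mem := by
  have key : ∀ k k' : ℕ, k < k' → mem k ≠ mem k' := by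
    intro k k' hlt heq
    have h1 := congrFun heq (2 * k + 1)
    rw [mem_odd, mem_odd] at h1
    have h2 : ¬ k' ≤ k := by omega
    simp [h2] at h1
  intro k k' heq
  rcases lt_trichotomy k k' with h | h | h
  · exact absurd heq (key k k' h)
  · exact h
  · exact absurd heq.symm (key k' k h)

theorem fibre_countable' (t : ℝ) : {ε : ℕ → Bool | subsum X ε = t}.Countable := by
  by_cases h : ∃ a, subsum X a = t
  · obtain ⟨a, ha⟩ := h
    have : {ε : ℕ → Bool | subsum X ε = t} = {ε : ℕ → Bool | dig ε = dig a} := by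
      ext ε
      show subsum X ε = t ↔ dig ε = dig a
      rw [← subsum_eq_iff, ha]
    rw [this]
    exact fibre_countable a
  · have : {ε : ℕ → Bool | subsum X ε = t} = ∅ := by
      ext ε
      simp only [mem_ofPred_eq, mem_empty_iff_false, iff_false]
      exact fun h1 => h ⟨ε, h1⟩
    rw [this]
    exact Set.countable_empty

theorem cardFun_le (t : ℝ) : cardFun X t ≤ Cardinal.aleph0 := by
  have := fibre_countable' t
  rw [← Cardinal.le_aleph0_iff_set_countable] at this
  exact this

/-- the tail description of the level set -/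
theorem level_sub : levelSet X Cardinal.aleph0 ⊆
    subsum X '' {ε : ℕ → Bool | ∃ N, ∀ n, N ≤ n → ε (n + 2) = ε n} := by
  intro t ht
  have ht' : Cardinal.mk {ε : ℕ → Bool // subsum X ε = t} = Cardinal.aleph0 := ht
  have hinf : {ε : ℕ → Bool | subsum X ε = t}.Infinite := by
    have : Infinite {ε : ℕ → Bool // subsum X ε = t} := by
      rw [Cardinal.infinite_iff, ht']
    exact Set.infinite_coe_iff.mp this
  obtain ⟨a, ha⟩ := hinf.exists_accPt_principal
  rw [accPt_iff_nhds] at ha
  -- the digits of the accumulation point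
  have hdigeq : ∀ ε ε' : ℕ → Bool, subsum X ε = t → subsum X ε' = t → dig ε = dig ε' := by
    intro ε ε' h1 h2
    rw [← subsum_eq_iff, h1, h2]
  have hnh : ∀ K : ℕ, {ε : ℕ → Bool | ∀ i, i < K → ε i = a i} ∈ 𝓝 a := by
    intro K
    have h1 : {ε : ℕ → Bool | ∀ i, i < K → ε i = a i} = ⋂ i ∈ Finset.range K, {ε | ε i = a i} := by
      ext ε
      simp
    rw [h1]
    refine (Filter.biInter_finset_mem _).mpr fun i _ => ?_
    have h2 : IsOpen ((fun ε : ℕ → Bool => ε i) ⁻¹' {a i}) :=
      IsOpen.preimage (continuous_apply (A := fun _ : ℕ => Bool) i) (isOpen_discrete ({a i} : Set Bool))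
    exact h2.mem_nhds rfl
  have hclose : ∀ K : ℕ, ∃ ε : ℕ → Bool, subsum X ε = t ∧ ε ≠ a ∧ ∀ i, i < K → ε i = a i := by
    intro K
    obtain ⟨ε, ⟨h1, h2⟩, h3⟩ := ha _ (hnh K)
    exact ⟨ε, h2, h3, h1⟩
  -- the accumulation point lies in the fibre
  obtain ⟨ε0, hε0, -, -⟩ := hclose 0
  have hdiga : dig a = dig ε0 := by
    funext n
    obtain ⟨ε, h1, -, h3⟩ := hclose (2 * (n + aI n + bI n) + 4)
    have h4 := hdigeq ε ε0 h1 hε0
    rw [← h4]
    unfold dig D
    beta_reduce
    rw [h3 (2 * n) (by omega), h3 (2 * aI n + 1) (by omega), h3 (2 * bI n + 1) (by omega),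
      h3 (2 * (bI n + 1) + 1) (by omega)]
  have hat : subsum X a = t := by
    rw [(subsum_eq_iff a ε0).mpr hdiga, hε0]
  refine ⟨a, ?_, hat⟩
  apply periodic_of_acc
  intro K
  obtain ⟨ε, h1, h2, h3⟩ := hclose K
  exact ⟨ε, hdigeq ε a h1 hat, h2, h3⟩

theorem level_countable : (levelSet X Cardinal.aleph0).Countable :=
  (periodic_countable.image _).mono level_sub

theorem level_nonempty : (levelSet X Cardinal.aleph0).Nonempty := by
  refine ⟨subsum X (mem 0), ?_⟩
  show cardFun X (subsum X (mem 0)) = Cardinal.aleph0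
  apply le_antisymm (cardFun_le _)
  unfold cardFun
  rw [← Cardinal.infinite_iff]
  have hmem : ∀ k, subsum X (mem k) = subsum X (mem 0) := by
    intro k
    rw [subsum_eq_iff]
    funext n
    rw [dig_mem, dig_mem]
  refine Infinite.of_injective
    (fun k : ℕ => (⟨mem k, hmem k⟩ : {ε : ℕ → Bool // subsum X ε = subsum X (mem 0)})) ?_
  intro k k' h
  exact mem_injective (congrArg Subtype.val h)

end Construction

/-- There is a summable sequence `x` of positive reals such that no real is a subsum in continuum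
many ways (so `L_𝔠(x) = ∅`), and the set `L_ω(x)` of the reals that are a subsum in countably
infinitely many ways is nonempty and countable; in particular it contains no Cantor set. -/
theorem result : ∃ x : ℕ → ℝ, (∀ n, 0 < x n) ∧ Summable x ∧
    levelSet x Cardinal.continuum = ∅ ∧
    (levelSet x Cardinal.aleph0).Nonempty ∧ (levelSet x Cardinal.aleph0).Countable ∧
    ¬ ∃ C : Set ℝ, C ⊆ levelSet x Cardinal.aleph0 ∧ Nonempty (C ≃ₜ cantorSet) := by
  refine ⟨X, X_pos, X_summable, ?_, level_nonempty, level_countable, ?_⟩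
  · ext t
    simp only [mem_empty_iff_false, iff_false]
    intro ht
    have h1 : cardFun X t = Cardinal.continuum := ht
    have h2 := cardFun_le t
    rw [h1] at h2
    exact absurd h2 (not_le.mpr Cardinal.aleph0_lt_continuum)
  · rintro ⟨C, hC, ⟨φ⟩⟩
    have h6 : Cardinal.mk (ℕ → Bool) = Cardinal.continuum := by simp
    have h1 : C.Countable := level_countable.mono hC
    have h2 : Countable C := h1.to_subtype
    have h3 : Countable cantorSet := Countable.of_equiv _ φ.toEquiv
    have h4 : Countable (ℕ → Bool) := Countable.of_equiv _ cantorSetHomeomorphNatToBool.toEquiv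
    have h5 : Cardinal.mk (ℕ → Bool) ≤ Cardinal.aleph0 := Cardinal.mk_le_aleph0_iff.mpr h4
    rw [h6] at h5
    exact absurd h5 (not_le.mpr Cardinal.aleph0_lt_continuum)

end Pool.Agent.Results.MP_c42e77_an.CountableLevel
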